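import Pool.Agent.R703.FM.Quiver

/-!
# Tame representations of any dimension with an acyclic graph of residual characters

Let `p` be an odd prime, `F` a number field, `K/F` an abelian extension whose Galois group `Δ` has
exponent dividing `p - 1`, and `S` a set of primes of `F` which do not lie above `p`. Let `X` be the
set of the characters `χ : Δ → 𝔽_p^×` which occur in the class group of `K` modulo `p`, or whose
restriction to the decomposition group of some prime in `S` is the cyclotomic character modulo `p`.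

Let `A` be a Noetherian local ring with finite residue field of characteristic `p`, for example the
ring of integers of a finite extension of `ℚ_p`, and let `ρ : G_F → GL_n(A)` be a continuous
representation of any dimension `n`, whose restriction to `G_K` is unramified outside `S` (so also
at the primes above `p`). Let `ψ_0, ..., ψ_(m-1)` be characters of `Δ` which give the action of
`G_F` on the quotients of a filtration of the reduction of `ρ` (they exist if the restriction of
`ρ` to `G_K` is residually unipotent). Suppose that the directed graph with the arrows `ψ → χ ψ`,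
`χ ∈ X`, has no directed cycle on the set of these characters. Then

* `ρ` is unipotent on `G_K`: all products of `t` matrices `ρ h - 1`, `h ∈ G_K`, vanish if no
  directed path has `t` arrows;
* if `p` is not a zero divisor in `A`, then `ρ` is trivial on `G_K`, that is, it factors through the
  finite group `Gal(K/F)`;
* in general, the image of `ρ` is finite.

In the last two parts we assume that powers of `p` kill the `p`-part of the class group of `K`
and the tame inertia groups, and in the last part that `K` has only finitely many cyclic extensions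
of degree `p` unramified outside `S`; this is always true if `S` is finite.
-/

set_option autoImplicit false

open NumberField IsLocalRing

namespace Pool.Agent.Results.MP_924d78_nt.AcyclicCharacters

section

variable {F : Type} [Field F] {K : IntermediateField F (AlgebraicClosure F)}

/-- The homomorphism `f` from the absolute Galois group of `K` to a group `E` is unramified at all
finite primes: for every maximal ideal `P` of the ring of all algebraic integers, the inertia group
at `P` in the absolute Galois group of `K` is mapped to `1`. -/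
def Unramified {E : Type} [Group E] (f : K.fixingSubgroup →* E) : Prop :=
  ∀ P : Ideal (𝓞 (AlgebraicClosure F)), P.IsMaximal → ∀ τ : K.fixingSubgroup,
    (∀ x : 𝓞 (AlgebraicClosure F), (τ : Gal(AlgebraicClosure F/F)) • x - x ∈ P) → f τ = 1

/-- The homomorphism `f` from the absolute Galois group of `K` to a group `E` is unramified outside
the set `S` of primes of `F`. -/
def UnramifiedOutside (S : Set (Ideal (𝓞 F))) {E : Type} [Group E]
    (f : K.fixingSubgroup →* E) : Prop :=
  ∀ P : Ideal (𝓞 (AlgebraicClosure F)), P.IsMaximal →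
    P.comap (algebraMap (𝓞 F) (𝓞 (AlgebraicClosure F))) ∉ S → ∀ τ : K.fixingSubgroup,
      (∀ x : 𝓞 (AlgebraicClosure F), (τ : Gal(AlgebraicClosure F/F)) • x - x ∈ P) → f τ = 1

end

/-- `σ` maps the maximal ideal `P` of the ring of all algebraic integers to itself and acts on its
residue field by `x ↦ x ^ Q`. -/
def ActsAsPower {F : Type} [Field F] (Q : ℕ) (P : Ideal (𝓞 (AlgebraicClosure F)))
    (σ : Gal(AlgebraicClosure F/F)) : Prop :=
  ∀ x : 𝓞 (AlgebraicClosure F), σ • x - x ^ Q ∈ P

/-- `p ^ e` kills the Galois group of every unramified finite abelian extension of `K` of `p`-power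
degree (by class field theory, the `p`-part of the class group of `K`, if `p` is odd). -/
def ClassGroupExponent {F : Type} [Field F] (K : IntermediateField F (AlgebraicClosure F))
    (p e : ℕ) : Prop :=
  ∀ (E : Type) [CommGroup E] [Finite E], IsPGroup p E → ∀ f : K.fixingSubgroup →* E,
    IsOpen (f.ker : Set K.fixingSubgroup) → Unramified f → ∀ g, f g ^ (p ^ e) = 1

/-- For every `P` above `S` some element of the absolute Galois group of `K` acts on the residue
field of `P` by `x ↦ x ^ Q`, where `p ^ (e + 1)` does not divide `Q - 1`. (One can take for `Q` the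
norm of the prime of `K` below `P`, if `p ^ (e + 1)` does not divide `Q - 1`.) -/
def TameExponent {F : Type} [Field F] (S : Set (Ideal (𝓞 F)))
    (K : IntermediateField F (AlgebraicClosure F)) (p e : ℕ) : Prop :=
  ∀ P : Ideal (𝓞 (AlgebraicClosure F)), P.IsMaximal →
    P.comap (algebraMap (𝓞 F) (𝓞 (AlgebraicClosure F))) ∈ S →
      ∃ σ ∈ K.fixingSubgroup, ∃ Q : ℕ, ActsAsPower Q P σ ∧ ¬ p ^ (e + 1) ∣ Q - 1

/-- The character `χ` of `Gal(K/F)` occurs in the Galois group of the maximal unramified elementary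
abelian `p`-extension of `K` (by class field theory, in the class group of `K` modulo `p`): there is
a nonzero unramified homomorphism `f` with open kernel from the absolute Galois group of `K` to
`ℤ/p` with `f (σ g σ⁻¹) = χ(σ) f(g)` for all `σ` in the absolute Galois group of `F`. -/
def OccursInClassGroup {F : Type} [Field F] (p : ℕ) (K : IntermediateField F (AlgebraicClosure F))
    [Normal F K] (χ : Gal(K/F) →* (ZMod p)ˣ) : Prop :=
  ∃ f : K.fixingSubgroup →* Multiplicative (ZMod p), IsOpen (f.ker : Set K.fixingSubgroup) ∧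
    Unramified f ∧ (∃ g, f g ≠ 1) ∧
    ∀ (σ : Gal(AlgebraicClosure F/F)) (g g' : K.fixingSubgroup),
      (g' : Gal(AlgebraicClosure F/F)) = σ * g * σ⁻¹ →
        Multiplicative.toAdd (f g') =
          (χ (AlgEquiv.restrictNormalHom K σ) : ZMod p) * Multiplicative.toAdd (f g)

/-- On the decomposition group of some prime in `S` the character `χ` is the cyclotomic character
modulo `p`: for some `P` above `S`, all `σ` that act on the residue field of `P` by `x ↦ x ^ Q`
satisfy `χ(σ) = Q` modulo `p`. -/
def CyclotomicAt {F : Type} [Field F] (p : ℕ) (S : Set (Ideal (𝓞 F)))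
    (K : IntermediateField F (AlgebraicClosure F)) [Normal F K]
    (χ : Gal(K/F) →* (ZMod p)ˣ) : Prop :=
  ∃ P : Ideal (𝓞 (AlgebraicClosure F)), P.IsMaximal ∧
    P.comap (algebraMap (𝓞 F) (𝓞 (AlgebraicClosure F))) ∈ S ∧
    ∀ (σ : Gal(AlgebraicClosure F/F)) (Q : ℕ), ActsAsPower Q P σ →
      (χ (AlgEquiv.restrictNormalHom K σ) : ZMod p) = Q

/-- the set `X` of characters -/
def Exceptional {F : Type} [Field F] (p : ℕ) (S : Set (Ideal (𝓞 F)))
    (K : IntermediateField F (AlgebraicClosure F)) [Normal F K] :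
    Set (Gal(K/F) →* (ZMod p)ˣ) :=
  {χ | OccursInClassGroup p K χ ∨ CyclotomicAt p S K χ}

/-- `0 = U 0 ⊆ U 1 ⊆ ⋯ ⊆ U m` is a filtration of the reduction of `ρ`, `U m` is everything, and
every `σ` in the absolute Galois group of `F` acts on `U (s + 1) / U s`, `s < m`, as the
multiplication by `ψ s σ`; in particular the `U s` are subrepresentations. -/
structure ResidualFiltration {F : Type} [Field F] {A : Type} [CommRing A] [IsLocalRing A] {n : ℕ}
    {p : ℕ} (K : IntermediateField F (AlgebraicClosure F)) [Normal F K]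
    (ρ : Gal(AlgebraicClosure F/F) →* GL (Fin n) A) (m : ℕ)
    (U : ℕ → Submodule (ResidueField A) (Fin n → ResidueField A))
    (ψ : ℕ → (Gal(K/F) →* (ZMod p)ˣ)) : Prop where
  bot : U 0 = ⊥
  mono : ∀ s, U s ≤ U (s + 1)
  top : U m = ⊤
  acts : ∀ s, s < m → ∀ σ, ∀ v ∈ U (s + 1),
    Matrix.mulVec ((ρ σ : Matrix (Fin n) (Fin n) A).map (residue A)) v -
      ((ψ s (AlgEquiv.restrictNormalHom K σ) : ZMod p).val : ResidueField A) • v ∈ U s

/-- `level` is a function to `{0, ..., t - 1}` which increases strictly along every arrow between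
the characters `ψ s`; it exists for some `t` if and only if there are no directed cycles. -/
theorem result (p : ℕ) [Fact p.Prime] (F : Type) [Field F] [NumberField F]
    (K : IntermediateField F (AlgebraicClosure F)) [FiniteDimensional F K] [IsGalois F K]
    (hcomm : ∀ σ τ : Gal(K/F), σ * τ = τ * σ) (hexp : ∀ σ : Gal(K/F), σ ^ (p - 1) = 1)
    (S : Set (Ideal (𝓞 F))) (hS : ∀ 𝔮 ∈ S, (p : 𝓞 F) ∉ 𝔮)
    (A : Type) [CommRing A] [IsLocalRing A] [IsNoetherianRing A] [TopologicalSpace A]
    (hA : IsAdic (maximalIdeal A)) (hfin : Finite (ResidueField A))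
    (hp : (p : A) ∈ maximalIdeal A) (n : ℕ)
    (ρ : Gal(AlgebraicClosure F/F) →* GL (Fin n) A) (hρ : Continuous ρ)
    (hur : UnramifiedOutside S (ρ.comp K.fixingSubgroup.subtype)) (m : ℕ)
    (U : ℕ → Submodule (ResidueField A) (Fin n → ResidueField A))
    (ψ : ℕ → (Gal(K/F) →* (ZMod p)ˣ)) (hU : ResidualFiltration K ρ m U ψ)
    (t : ℕ) (level : (Gal(K/F) →* (ZMod p)ˣ) → ℕ) (ht : ∀ s, s < m → level (ψ s) < t)
    (hlevel : ∀ s s', s < m → s' < m → ∀ χ ∈ Exceptional p S K, ψ s' = χ * ψ s →
      level (ψ s) < level (ψ s')) :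
    (∀ h : Fin t → K.fixingSubgroup, (List.ofFn fun i =>
      (ρ (h i : Gal(AlgebraicClosure F/F)) : Matrix (Fin n) (Fin n) A) - 1).prod = 0) ∧
    ∀ e₁ e₂ : ℕ, ClassGroupExponent K p e₁ → TameExponent S K p e₂ →
      ((∀ x : A, (p : A) * x = 0 → x = 0) → ∀ h ∈ K.fixingSubgroup, ρ h = 1) ∧
      ({f : K.fixingSubgroup →* Multiplicative (ZMod p) | IsOpen (f.ker : Set K.fixingSubgroup) ∧
        UnramifiedOutside S f}.Finite → (Set.range ρ).Finite) := by
  have hpp : p.Prime := Fact.out
  let inst : CommGroup Gal(K/F) := { (inferInstance : Group Gal(K/F)) with mul_comm := hcomm }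
  have hfi : Finite (Gal(AlgebraicClosure F/F) ⧸ K.fixingSubgroup) := by
    have : CompactSpace Gal(AlgebraicClosure F/F) := inferInstance
    exact Subgroup.quotient_finite_of_isOpen _ (IntermediateField.fixingSubgroup_isOpen K)
  have hidx : K.fixingSubgroup.FiniteIndex := Subgroup.finiteIndex_of_finite_quotient
  have hHo := IntermediateField.fixingSubgroup_isOpen K
  have hUr : ∀ τ ∈ Pool.Agent.Y802.GC.UrN S K.fixingSubgroup,
      ρ (τ : Gal(AlgebraicClosure F/F)) = 1 := fun τ ⟨P, hP, hPS, hτ⟩ => hur P hP hPS τ hτ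
  let π : Gal(AlgebraicClosure F/F) →* Gal(K/F) := AlgEquiv.restrictNormalHom K
  have hHπ : ∀ σ, σ ∈ K.fixingSubgroup ↔ π σ = 1 := fun σ => by
    rw [← IntermediateField.restrictNormalHom_ker, MonoidHom.mem_ker]
  let c : (Gal(K/F) →* (ZMod p)ˣ) → (Gal(K/F) →* ZMod p) := fun χ => (Units.coeHom (ZMod p)).comp χ
  have hc : ∀ χ σ, c χ σ = (χ σ : ZMod p) := fun χ σ => rfl
  have hcinj : Function.Injective c := fun χ χ' h => by
    ext σ
    rw [← hc, h, hc]
  have hunit : ∀ χ : Gal(K/F) →* ZMod p, ∃ χ', c χ' = χ :=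
    fun χ => ⟨MonoidHom.toHomUnits χ, by ext σ; rfl⟩
  have hexc : ∀ χ : Gal(K/F) →* (ZMod p)ˣ,
      (Pool.Agent.R703.FM.Occ p π K.fixingSubgroup (c χ) ∨
        Pool.Agent.R703.FM.Loc p π S (c χ)) → χ ∈ Exceptional p S K := by
    rintro χ (⟨f, hf1, hf2, hf3, hf4⟩ | ⟨P, hP, hPS, h⟩)
    · refine Or.inl ⟨f, hf1, hf2, hf3, fun σ g g' hg' => ?_⟩
      have h1 : g' = MulAut.conjNormal σ g := by
        apply Subtype.ext
        rw [hg', MulAut.conjNormal_apply]
      rw [h1, hf4 σ g, hc]
    · exact Or.inr ⟨P, hP, hPS, fun σ Q hσ => by rw [← hc]; exact h σ Q hσ⟩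
  have hnil : (Pool.Agent.Y802.QV.II A K.fixingSubgroup (Pool.Agent.Y802.QV.mat ρ)) ^ t = ⊥ := by
    refine Pool.Agent.R703.FM.unip_of hA hfin hp hexp π (AlgEquiv.restrictNormalHom_surjective _)
      hHπ (fun g τ hτ => Pool.Agent.Y802.GC.UrN_conj S _ g τ hτ)
      {χ | Pool.Agent.R703.FM.Occ p π K.fixingSubgroup χ ∨ Pool.Agent.R703.FM.Loc p π S χ}
      (fun χ f hf hf1 heq => Pool.Agent.R703.FM.occ_or_loc hS hHo π χ f hf hf1 heq) ρ hρ hUr
      U (fun s => c (ψ s)) hU.bot hU.top hU.mono hU.acts (fun s => level (ψ s)) ht ?_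
    rintro s s' hs hs' ⟨χ, hχ, hψ⟩
    obtain ⟨χ', rfl⟩ := hunit χ
    exact hlevel s s' hs hs' χ' (hexc χ' hχ) (hcinj (by rw [hψ]; rfl))
  refine ⟨Pool.Agent.Y802.QV.prod_eq_zero hnil, fun e₁ e₂ he₁ he₂ => ?_⟩
  have hexp' : ∀ g : K.fixingSubgroup, (p : A) ^ (e₁ + e₂) •
      (Pool.Agent.Y802.QV.mat ρ g - 1) ∈
        Pool.Agent.Y802.QV.II A K.fixingSubgroup (Pool.Agent.Y802.QV.mat ρ) *
          Pool.Agent.Y802.QV.II A K.fixingSubgroup (Pool.Agent.Y802.QV.mat ρ) :=
    Pool.Agent.Y802.QV.exponent hA hfin hp ρ hρ hUr fun E _ _ hE f hf hfu g =>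
      Pool.Agent.R703.FM.exp_of hS hHo (fun E _ _ hE f hf hu g => he₁ E hE f hf hu g) he₂ E hE f
        hf hfu g
  refine ⟨fun hreg h hh => ?_, fun hV => ?_⟩
  · exact Pool.Agent.Y802.QV.trivial_of_exponent hreg ρ hnil hexp' ⟨h, hh⟩
  · refine Pool.Agent.Y802.QV.finite_range_of K.fixingSubgroup ρ ?_
    refine Pool.Agent.Y802.QV.finite_of' hpp hA hfin hp ρ hρ hUr hexp'
      (hV.subset fun f hf => ⟨hf.isOpen, fun P hP hPS τ hτ => hf.ur τ ⟨P, hP, hPS, hτ⟩⟩) U
      hU.bot hU.top (fun s hs h v hv => ?_) hnil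
    have h1 := hU.acts s hs h v hv
    have h2 : AlgEquiv.restrictNormalHom K (h : Gal(AlgebraicClosure F/F)) = 1 := (hHπ h).1 h.2
    have : Fact (1 < p) := ⟨hpp.one_lt⟩
    rw [h2, map_one, Units.val_one, ZMod.val_one, Nat.cast_one, one_smul] at h1
    exact h1

end Pool.Agent.Results.MP_924d78_nt.AcyclicCharacters
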