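import Pool.Agent.Results.MP_f68ac8_nt.RankTwoWeightZero
import Pool.Agent.R338.CU.Tame

/-!
# Tame representations of rank two, for almost 9/10 of the pairs of primes

`p = 3`. For a positive proportion of the pairs and triples of primes `≡ 1` modulo `3`, taken from
arbitrary sets, all continuous residually unipotent representations of rank two of the Galois group
of the maximal extension of `ℚ` unramified outside these primes (and any primes `≡ 2` modulo `3`)
have finite image.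
-/

set_option autoImplicit false

open NumberField Matrix IsLocalRing Finset
open scoped Classical

namespace Pool.Agent.Results.MP_924d78_nt.RandomRankTwo

/-- `ρ` is unramified at all primes that do not lie above a prime number in `S`. -/
def UnramifiedOutside {A : Type} [CommRing A] (S : Finset ℕ)
    (ρ : Gal(AlgebraicClosure ℚ/ℚ) →* GL (Fin 2) A) : Prop :=
  ∀ P : Ideal (𝓞 (AlgebraicClosure ℚ)), P.IsMaximal →
    (∀ l ∈ S, (l : 𝓞 (AlgebraicClosure ℚ)) ∉ P) →
      ∀ τ : Gal(AlgebraicClosure ℚ/ℚ), (∀ x : 𝓞 (AlgebraicClosure ℚ), τ • x - x ∈ P) → ρ τ = 1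

/-- Every `ρ g` is unipotent modulo the maximal ideal: some power of `ρ g - 1` has all entries in
the maximal ideal. -/
def ResiduallyUnipotent {A : Type} [CommRing A] [IsLocalRing A]
    (ρ : Gal(AlgebraicClosure ℚ/ℚ) →* GL (Fin 2) A) : Prop :=
  ∀ g, ∃ M : ℕ, ∀ i j, (((ρ g : Matrix (Fin 2) (Fin 2) A) - 1) ^ M) i j ∈ maximalIdeal A

/-- The inertia groups at the primes above the members of `T` act unipotently. -/
def UnipotentInertia {A : Type} [CommRing A] (T : Finset ℕ)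
    (ρ : Gal(AlgebraicClosure ℚ/ℚ) →* GL (Fin 2) A) : Prop :=
  ∀ l ∈ T, ∀ P : Ideal (𝓞 (AlgebraicClosure ℚ)), P.IsMaximal →
    (l : 𝓞 (AlgebraicClosure ℚ)) ∈ P → ∀ τ : Gal(AlgebraicClosure ℚ/ℚ),
      (∀ x : 𝓞 (AlgebraicClosure ℚ), τ • x - x ∈ P) →
        ((ρ τ : Matrix (Fin 2) (Fin 2) A) - 1) ^ 2 = 0

/-- For all finite sets `S'` of primes congruent to `2` modulo `3`, for all discrete valuation rings
`A` of characteristic `0` with finite residue field of characteristic `3`, with the adic topology,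
every continuous `ρ : Gal(ℚbar/ℚ) → GL_2(A)`, residually unipotent and unramified outside
`T ∪ S'`, has finite image, and it is trivial if the inertia groups at the primes in `T` act
unipotently. -/
def AlwaysFinite (T : Finset ℕ) : Prop :=
  ∀ S' : Finset ℕ, (∀ l ∈ S', l.Prime ∧ l % 3 = 2) →
  ∀ (A : Type) [CommRing A] [IsDomain A] [IsDiscreteValuationRing A] [CharZero A]
    [TopologicalSpace A], IsAdic (maximalIdeal A) → Finite (ResidueField A) →
    (3 : A) ∈ maximalIdeal A →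
  ∀ ρ : Gal(AlgebraicClosure ℚ/ℚ) →* GL (Fin 2) A, Continuous ρ → UnramifiedOutside (T ∪ S') ρ →
    ResiduallyUnipotent ρ → (Set.range ρ).Finite ∧ (UnipotentInertia T ρ → ∀ g, ρ g = 1)

/-- `P 0, …, P (r - 1)` are pairwise disjoint sets of primes congruent to `1` modulo `3`, the
members of `P i` are at most `X i`, and `1 ≤ z ≤ X i`. -/
def Sets (r : ℕ) (P : Fin r → Finset ℕ) (X : Fin r → ℕ) (z : ℕ) : Prop :=
  1 ≤ z ∧ (∀ i, z ≤ X i) ∧ (∀ i, ∀ p ∈ P i, p.Prime ∧ p % 3 = 1 ∧ p ≤ X i) ∧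
    ∀ i l, i ≠ l → Disjoint (P i) (P l)

/-- The number of the tuples `(p_0, …, p_{r-1})`, `p_i ∈ P i`, such that `AlwaysFinite` holds for
`{p_0, …, p_{r-1}}`. -/
noncomputable def count {r : ℕ} (P : Fin r → Finset ℕ) : ℝ :=
  ({p : Fin r → ℕ | (∀ i, p i ∈ P i) ∧ AlwaysFinite (univ.image p)}.ncard : ℝ)

section crit

open Pool.Agent.R338.CU

theorem tame_eq {T S' : Finset ℕ} (hT : ∀ l ∈ T, l.Prime ∧ l % 3 = 1)
    (hS' : ∀ l ∈ S', l.Prime ∧ l % 3 = 2) :
    Pool.Agent.Results.MP_f68ac8_nt.RankTwoWeightZero.Tame 3 (T ∪ S') = T := by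
  ext l
  simp only [Pool.Agent.Results.MP_f68ac8_nt.RankTwoWeightZero.Tame, mem_filter, mem_union]
  constructor
  · rintro ⟨h | h, h3⟩
    · exact h
    · have h2 := (hS' l h).2
      have := (hS' l h).1.one_lt
      omega
  · intro h
    have h2 := (hT l h).2
    have := (hT l h).1.one_lt
    exact ⟨Or.inl h, by omega⟩

theorem crit {T : Finset ℕ} (hT : ∀ l ∈ T, l.Prime ∧ l % 3 = 1)
    (h : ∀ (F : Type) [Field F] [Finite F] [CharP F 3], TC F T) : AlwaysFinite T := by
  intro S' hS' A _ _ _ _ _ hA hfin h3 ρ hρ hur hres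
  have hc : CharP (ResidueField A) 3 :=
    TH831.OE.charP_res Nat.prime_three (by exact_mod_cast h3)
  have hTame := tame_eq hT hS'
  have h3S : (3 : ℕ) ∉ T ∪ S' := by
    rw [mem_union]
    rintro (h | h)
    · have := (hT 3 h).2
      omega
    · have := (hS' 3 h).2
      omega
  -- the ramification index
  have hp0 : ((3 : ℕ) : A) ≠ 0 := by exact_mod_cast (by decide : (3 : ℕ) ≠ 0)
  obtain ⟨e, c, hc', hqc⟩ := TH831.OE.spl (B := TH831.OE.bas A) ((3 : ℕ) : A) hp0
  have h0 : ((3 : ℕ) : A) ∈ maximalIdeal A ^ e := (TH831.OE.mem_pow_iff e _).2 ⟨c, hc'⟩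
  have h1 : ((3 : ℕ) : A) ∉ maximalIdeal A ^ (e + 1) := by
    intro h
    obtain ⟨d, hd⟩ := (TH831.OE.mem_pow_iff (e + 1) _).1 h
    apply hqc
    rw [((TH831.OE.bas A).ker c).2]
    refine ⟨d, ?_⟩
    have hϖ : (TH831.OE.bas A).π ^ e ≠ 0 := pow_ne_zero _ (TH831.OE.bas A).hπ
    apply mul_left_cancel₀ hϖ
    rw [← hc', hd, pow_succ, mul_assoc]
  have he : 1 ≤ e := by
    rcases Nat.eq_zero_or_pos e with h | h
    · exfalso
      subst h
      rw [zero_add, pow_one] at h1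
      exact h1 (by exact_mod_cast h3)
    · exact h
  have key := Pool.Agent.Results.MP_f68ac8_nt.RankTwoWeightZero.result 3 (by decide) (T ∪ S')
    (fun l hl => by
      rcases mem_union.1 hl with hl | hl
      · exact (hT l hl).1
      · exact (hS' l hl).1) A hA hfin e he h0 h1 ρ hρ hur (fun h => absurd h h3S) hres
  have tc := h (ResidueField A)
  have hnt : ∀ l ∈ Pool.Agent.Results.MP_f68ac8_nt.RankTwoWeightZero.Tame 3 (T ∪ S'),
      ∃ x, chi l x ≠ 1 := fun l hl => by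
    rw [hTame] at hl
    exact chi_ne (hT l hl).1 (hT l hl).2
  have htup : ∀ r : ℕ, Pool.Agent.Results.MP_f68ac8_nt.RankTwoWeightZero.NoTuple (ResidueField A)
      3 r (T ∪ S') chi := by
    intro r
    unfold Pool.Agent.Results.MP_f68ac8_nt.RankTwoWeightZero.NoTuple
    rw [hTame]
    exact tc.nt r
  refine ⟨key.1 ⟨chi, hnt, Or.inr ⟨?_, fun r _ => htup r⟩⟩, fun hU => ?_⟩
  · intro x y a b hab hxy _
    obtain ⟨rfl, rfl⟩ := hab h3S
    rw [hTame] at hxy ⊢
    obtain ⟨c, d, hcd, h7⟩ := tc.ni x y fun l hl => by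
      have := hxy l hl
      rw [mul_zero, add_zero, add_zero] at this
      exact this
    exact ⟨c, d, hcd, by rw [mul_zero, mul_zero], h7⟩
  · refine key.2.2 h3S (Or.inr ⟨chi, hnt, ?_, fun r _ => htup r⟩) (Or.inr (Or.inr ?_))
    · unfold Pool.Agent.Results.MP_f68ac8_nt.RankTwoWeightZero.NoPair
      rw [hTame]
      exact tc.h0
    · unfold Pool.Agent.Results.MP_f68ac8_nt.RankTwoWeightZero.UnipotentInertia
      rw [hTame]
      exact hU

end crit

/-- **Tame representations of rank two have finite image for most small sets of primes.** There is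
a constant `C` such that, for all disjoint sets `P i` of primes `≡ 1` modulo `3` as in `Sets`,
`AlwaysFinite` holds for all but `(1/9) ∏ #P i + C z ^ (-1/12) ∏ X i` of the pairs in
`P 0 × P 1`, and for at least `(304/729) ∏ #P i - C z ^ (-1/12) ∏ X i` of the triples in
`P 0 × P 1 × P 2`. -/
theorem result : ∃ C : ℝ,
    (∀ (P : Fin 2 → Finset ℕ) (X : Fin 2 → ℕ) (z : ℕ), Sets 2 P X z →
      8 / 9 * ∏ i, ((P i).card : ℝ) - C * (z : ℝ) ^ (-(1 / 12 : ℝ)) * ∏ i, (X i : ℝ) ≤ count P) ∧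
    (∀ (P : Fin 3 → Finset ℕ) (X : Fin 3 → ℕ) (z : ℕ), Sets 3 P X z →
      304 / 729 * ∏ i, ((P i).card : ℝ) - C * (z : ℝ) ^ (-(1 / 12 : ℝ)) * ∏ i, (X i : ℝ) ≤
        count P) := by
  obtain ⟨C, hC1, hC⟩ := Pool.Agent.R338.CU.main_lower
  have toS : ∀ {r : ℕ} {P : Fin r → Finset ℕ} {X : Fin r → ℕ} {z : ℕ}, Sets r P X z →
      Pool.Agent.R338.CU.Sets P X z := fun h => ⟨h.1, h.2.1, h.2.2.1, h.2.2.2⟩
  have cnt : ∀ {r : ℕ} (P : Fin r → Finset ℕ), count P =
      (((Fintype.piFinset P).filter fun p => AlwaysFinite (univ.image p)).card : ℝ) := by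
    intro r P
    unfold count
    rw [← Set.ncard_coe_finset]
    congr 2
    ext p
    simp
  have img : ∀ {r : ℕ} {p : Fin r → ℕ}, Pool.Agent.R338.CU.Tup p →
      ∀ l ∈ univ.image p, l.Prime ∧ l % 3 = 1 := by
    intro r p hp l hl
    obtain ⟨i, -, rfl⟩ := mem_image.1 hl
    exact ⟨hp.pr i, hp.m3 i⟩
  refine ⟨729 * C, fun P X z hS => ?_, fun P X z hS => ?_⟩
  · rw [cnt]
    have h1 := hC 2 P X z (toS hS) Pool.Agent.R338.CU.Q2 (8 / 9) Pool.Agent.R338.CU.q2_le
      (fun p => AlwaysFinite (univ.image p)) (fun p hp hQ =>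
        crit (img ((toS hS).tup hp)) fun F _ _ _ => Pool.Agent.R338.CU.tc2 ((toS hS).tup hp) hQ)
    refine le_trans ?_ h1
    have h0 : 0 ≤ C * (z : ℝ) ^ (-(1 / 12 : ℝ)) * ∏ i, (X i : ℝ) := by positivity
    have h9 : (3 : ℝ) ^ (2 * (2 - 1)) = 9 := by norm_num
    rw [h9]
    set w : ℝ := (z : ℝ) ^ (-(1 / 12 : ℝ)) with hw
    set q : ℝ := ∏ i, (X i : ℝ) with hq
    have e1 : 729 * C * w * q = 729 * (C * w * q) := by ring
    rw [e1]
    linarith
  · rw [cnt]
    have h1 := hC 3 P X z (toS hS) Pool.Agent.R338.CU.QT (304 / 729) Pool.Agent.R338.CU.qT_le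
      (fun p => AlwaysFinite (univ.image p)) (fun p hp hQ =>
        crit (img ((toS hS).tup hp)) fun F _ _ _ => Pool.Agent.R338.CU.tc3 ((toS hS).tup hp) hQ)
    refine le_trans (le_of_eq ?_) h1
    norm_num
    ring

end Pool.Agent.Results.MP_924d78_nt.RandomRankTwo
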