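import Pool.Agent.R338.EQ.FMc

/-!
# Tame representations over Noetherian local rings for random sets of primes

Let `m ≥ 2` and let `p 0, …, p (r - 1)` be distinct primes congruent to `1 + 2 ^ m` modulo
`2 ^ (m + 1)`.  Consider the graph of the pairs `{p i, p j}` of mutual quadratic nonresidues.  If
every set of at least five vertices is sparse in this graph or in its complement (it contains a
vertex with at most one neighbour, or it is not connected), then all continuous representations
`Gal(ℚbar/ℚ) → GL_n(A)`, for all `n` and all Noetherian local rings `A` of residue characteristic `2`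
with their adic topology, which are unramified outside `{p 0, …, p (r - 1)} ∪ S'` (in particular at
`2`) and trivial modulo `2 ^ m` on the inertia groups, have finite image, and they are trivial if
`2 ^ (m + 1) a = 0` implies `2 ^ m a = 0` in `A`; here `S'` is any finite set of odd primes not
congruent to `1` modulo `2 ^ m`.

We determine how often this happens: the graph is uniformly distributed among all labelled graphs
with `r` vertices when the primes run through boxes `p i ≤ X i`, with a power saving in the least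
`X i`, uniformly for `log (X i) ≤ z ^ (1 / (24 r))`, `z = min X i`.  For `r = 5` (where the Galois
group of the maximal `2`-extension unramified outside `{p 0, …, p 4}` is infinite, by Golod and
Shafarevich) the conclusion therefore holds for a proportion of at least `253 / 256` of all tuples;
the only exceptions come from the twelve pentagons.

The criterion comes from the methods of `AllDimensions` and `MP_f68ac8_nt.TameAllRanks`
(helper831 after helper146 and others); the bilinear estimate for quadratic symbols is of helper710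
and the equidistribution of the symbols of helper356.
-/

set_option autoImplicit false

open Finset Function NumberField IsLocalRing

namespace Pool.Agent.Results.MP_924d78_nt.RandomSets

open Pool.Agent.Results.MP_924d78_nt.AllDimensions (UnramifiedOutside InertiaTrivialMod)

/-- all continuous representations of the absolute Galois group of `ℚ` over Noetherian local rings of
residue characteristic `2`, unramified outside `S` and trivial modulo `2 ^ m` on the inertia groups
at the primes in `S`, have finite image, and are trivial if `2 ^ (m + 1) a = 0` implies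
`2 ^ m a = 0` in the ring -/
def TameFinite (m : ℕ) (S : Finset ℕ) : Prop :=
  ∀ (n : ℕ) (A : Type) [CommRing A] [IsLocalRing A] [IsNoetherianRing A] [TopologicalSpace A],
    IsAdic (maximalIdeal A) → (2 : A) ∈ maximalIdeal A →
    ∀ ρ : Gal(AlgebraicClosure ℚ/ℚ) →* GL (Fin n) A, Continuous ρ → UnramifiedOutside S ρ →
      InertiaTrivialMod 2 m S ρ →
      (Set.range ρ).Finite ∧
        ((∀ a : A, (2 : A) ^ (m + 1) * a = 0 → (2 : A) ^ m * a = 0) → ∀ g, ρ g = 1)

/-- the same for all sets `{p i} ∪ S'`, where `S'` is a finite set of odd primes which are not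
congruent to `1` modulo `2 ^ m` -/
def AlwaysFinite (m : ℕ) {r : ℕ} (p : Fin r → ℕ) : Prop :=
  ∀ S' : Finset ℕ, (∀ l ∈ S', l.Prime ∧ l ≠ 2 ∧ ¬ 2 ^ m ∣ l - 1) →
    TameFinite m (univ.image p ∪ S')

open Classical in
/-- the tuples of distinct primes `p i ≤ X i` congruent to `1 + 2 ^ m` modulo `2 ^ (m + 1)` -/
noncomputable def Box (m : ℕ) {r : ℕ} (X : Fin r → ℕ) : Finset (Fin r → ℕ) :=
  (Fintype.piFinset fun i => (range (X i + 1)).filter fun p =>
    p.Prime ∧ p % 2 ^ (m + 1) = 1 + 2 ^ m).filter Injective

open Classical in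
/-- the set of vertices `J` contains a vertex with at most one neighbour in `J`, or it has a
nonempty proper subset `K` without edges between `K` and `J \ K` -/
def Sparse {r : ℕ} (G : SimpleGraph (Fin r)) (J : Finset (Fin r)) : Prop :=
  (∃ l ∈ J, (J.filter fun j => G.Adj l j).card ≤ 1) ∨
    ∃ K : Finset (Fin r), K ⊂ J ∧ K.Nonempty ∧ ∀ l ∈ K, ∀ j ∈ J, j ∉ K → ¬ G.Adj l j

/-- every set of at least five vertices is sparse in the graph or in its complement -/
def Good {r : ℕ} (G : SimpleGraph (Fin r)) : Prop :=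
  ∀ J : Finset (Fin r), 5 ≤ J.card → Sparse G J ∨ Sparse Gᶜ J

/-- the proportion of the good graphs among all labelled graphs with `r` vertices -/
noncomputable def proportion (r : ℕ) : ℝ :=
  (Nat.card {G : SimpleGraph (Fin r) // Good G} : ℝ) / Nat.card (SimpleGraph (Fin r))

open Classical in
/-- the number of the tuples of the box for which this holds -/
noncomputable def count (m : ℕ) {r : ℕ} (X : Fin r → ℕ) : ℕ :=
  ((Box m X).filter fun p => AlwaysFinite m p).card

theorem main (m : ℕ) (hm : 2 ≤ m) (r : ℕ) (hr : 0 < r) :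
    ∃ C : ℝ, ∀ (X : Fin r → ℕ) (z : ℕ), 2 ≤ z → (∀ i, z ≤ X i) →
      (∀ i, Real.log (X i) ≤ (z : ℝ) ^ (1 / (24 * r : ℝ))) →
      (proportion r - C * (z : ℝ) ^ (-(1 / 24 : ℝ))) * ((Box m X).card : ℝ) ≤ count m X := by
  classical
  have h4 : 4 ∣ 2 ^ (m + 1) := by
    have : (2 : ℕ) ^ 2 ∣ 2 ^ (m + 1) := pow_dvd_pow 2 (by omega)
    exact this
  have h4' : 4 ∣ 2 ^ m := by
    have : (2 : ℕ) ^ 2 ∣ 2 ^ m := pow_dvd_pow 2 hm
    exact this
  have hco : Nat.Coprime (1 + 2 ^ m) (2 ^ (m + 1)) := by
    apply Nat.Coprime.pow_right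
    rw [Nat.coprime_two_right, Nat.odd_iff]
    omega
  have hmod : (1 + 2 ^ m) % 2 ^ (m + 1) = 1 + 2 ^ m := by
    apply Nat.mod_eq_of_lt
    rw [pow_succ]
    have : 4 ≤ 2 ^ m := Nat.le_of_dvd (by positivity) h4'
    omega
  obtain ⟨C, -, h⟩ := Pool.Agent.R338.EQ.graph_law hr (by positivity : 0 < 2 ^ (m + 1)) h4
    (fun _ : Fin r => 1 + 2 ^ m) (fun _ => hco) (fun _ => by omega)
    (Pool.Agent.R338.EQ.Good)
  refine ⟨C, fun X z hz hzX hlog => ?_⟩
  have key := h X z hz hzX hlog
  have eB : ((Fintype.piFinset fun i => Pool.Agent.R338.EQ.clsM (2 ^ (m + 1)) (1 + 2 ^ m)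
      (X i)).filter fun p => Injective p) = Box m X := by
    unfold Box Pool.Agent.R338.EQ.clsM
    rw [hmod]
  have eG : ((Fintype.piFinset fun i => Pool.Agent.R338.EQ.clsM (2 ^ (m + 1)) (1 + 2 ^ m)
      (X i)).filter fun p => Injective p ∧
        Pool.Agent.R338.EQ.Good (Pool.Agent.R338.EQ.symG p)).card ≤ count m X := by
    rw [← filter_filter, eB]
    unfold count
    refine card_le_card fun p hp => ?_
    rw [mem_filter] at hp ⊢
    refine ⟨hp.1, fun S' hS' => ?_⟩
    have hb := hp.1
    unfold Box at hb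
    rw [mem_filter, Fintype.mem_piFinset] at hb
    exact Pool.Agent.R338.EQ.tame_of_good hm hb.2 (fun i => by
      have := hb.1 i
      rw [mem_filter] at this
      exact this.2) S' hS' hp.2
  have eG' : ((((Fintype.piFinset fun i => Pool.Agent.R338.EQ.clsM (2 ^ (m + 1)) (1 + 2 ^ m)
      (X i)).filter fun p => Injective p ∧
        Pool.Agent.R338.EQ.Good (Pool.Agent.R338.EQ.symG p)).card : ℕ) : ℝ) ≤ count m X := by
    exact_mod_cast eG
  rw [eB] at key
  have h1 := (abs_le.1 key).1
  have e : (proportion r - C * (z : ℝ) ^ (-(1 / 24 : ℝ))) * ((Box m X).card : ℝ) =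
      proportion r * ((Box m X).card : ℝ) -
        C * (z : ℝ) ^ (-(1 / 24 : ℝ)) * ((Box m X).card : ℝ) := by ring
  have e2 : proportion r = (Nat.card {G : SimpleGraph (Fin r) // Pool.Agent.R338.EQ.Good G} : ℝ) /
      Nat.card (SimpleGraph (Fin r)) := rfl
  rw [e, e2]
  linarith

theorem result (m : ℕ) (hm : 2 ≤ m) :
    (∀ r : ℕ, 0 < r → ∃ C : ℝ, ∀ (X : Fin r → ℕ) (z : ℕ), 2 ≤ z → (∀ i, z ≤ X i) →
      (∀ i, Real.log (X i) ≤ (z : ℝ) ^ (1 / (24 * r : ℝ))) →
      (proportion r - C * (z : ℝ) ^ (-(1 / 24 : ℝ))) * ((Box m X).card : ℝ) ≤ count m X) ∧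
    ∃ C : ℝ, ∀ (X : Fin 5 → ℕ) (z : ℕ), 2 ≤ z → (∀ i, z ≤ X i) →
      (∀ i, Real.log (X i) ≤ (z : ℝ) ^ (1 / 120 : ℝ)) →
      (253 / 256 - C * (z : ℝ) ^ (-(1 / 24 : ℝ))) * ((Box m X).card : ℝ) ≤ count m X := by
  refine ⟨main m hm, ?_⟩
  obtain ⟨C, h⟩ := main m hm 5 (by norm_num)
  refine ⟨C, fun X z hz hzX hlog => ?_⟩
  have h1 := h X z hz hzX fun i => (hlog i).trans (le_of_eq (by norm_num))
  refine le_trans ?_ h1
  apply mul_le_mul_of_nonneg_right _ (Nat.cast_nonneg _)
  have h2 : (253 / 256 : ℝ) ≤ proportion 5 := Pool.Agent.R338.EQ.prop5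
  linarith

end Pool.Agent.Results.MP_924d78_nt.RandomSets
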