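import Pool.Agent.R417.FK.Two

/-!
# Tame representations of number fields ramified at primes of several levels

Let `K` be a number field, `p` a prime, `p ^ m > 2`, and `S` a finite or infinite set of primes of
`K`. The level of `v ∈ S`, `v` not above `p`, is the number `k` for which `p ^ k` is the exact power
of `p` dividing `N(v) - 1`; let `S_k` be the set of the primes in `S` of level `k`.

Let `A` be any Noetherian local ring of residue characteristic `p` with its adic topology and
`ρ : G_K → GL_n(A)` a continuous representation, of any dimension, unramified outside `S` and at the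
primes above `p`, such that inertia at each prime `v` acts trivially modulo `p ^ m` and modulo all
powers of `p` which divide `N(v) - 1`. Suppose that for every `k ≥ m`

* `S_k` has at most two elements, or
* there is no infinitesimal solution at level `k`: no nonzero continuous homomorphism `φ` from
  `G_K` to the additive group of `n × n` matrices over a field of characteristic `p`, unramified
  outside `S_k`, such that `φ(τ)` is nilpotent and
  `φ(σ) φ(τ) - φ(τ) φ(σ) = ((N(v) - 1) / p ^ k) φ(τ)` for `v ∈ S_k`, `τ` in an inertia group at `v`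
  and `σ` a Frobenius element.

Suppose moreover that `K` has no extension which is unramified at all finite primes (for example
`K = ℚ`, or `K` of degree `2`, `3`, `4` and absolute discriminant at most `6`, `31`, `158`), or that
`K` has no such cyclic extension of degree `p` and `ρ` is residually unipotent. Then `ρ` is trivial
if `p` is a nonzerodivisor in `A`, and more generally if `p ^ (m + 1) a = 0` implies `p ^ m a = 0` in
`A`; for every `A` the image of `ρ` is finite if `S` is finite.

The levels do not interact, and `S` may be infinite. Proof: let `I` be the ideal generated by all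
entries of `ρ(g) - 1`. We show by induction on the level that inertia is trivial modulo `𝔪 I`. For
`k ≥ m` and inertia elements `1 + p ^ k a` at the primes of level `k`, the tame relation is
`u p ^ k a = [F, a]` modulo `𝔪 I`. If `a` is not zero modulo `𝔪`, then `p ^ k` is in `I` and not in
`𝔪 I`, and a linear form on `I / 𝔪 I` with value `1` at `p ^ k` gives an infinitesimal solution.
-/

set_option autoImplicit false

open NumberField IsLocalRing

namespace Pool.Agent.Results.MP_924d78_nt.SeveralLevels

/-- the absolute Galois group of the field `K`, with the Krull topology -/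
abbrev AbsGal (K : Type) [Field K] : Type := Gal(AlgebraicClosure K/K)

section
variable {K : Type} [Field K]

/-- `τ` lies in the inertia group at the ideal `P` of the ring of all algebraic integers. -/
def InInertia (P : Ideal (𝓞 (AlgebraicClosure K))) (τ : AbsGal K) : Prop :=
  ∀ x : 𝓞 (AlgebraicClosure K), τ • x - x ∈ P

/-- the ideal of the ring of integers of `K` below the ideal `P` of the ring of all algebraic
integers -/
noncomputable def below (P : Ideal (𝓞 (AlgebraicClosure K))) : Ideal (𝓞 K) :=
  P.comap (algebraMap (𝓞 K) (𝓞 (AlgebraicClosure K)))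

/-- `σ` is a Frobenius element at `P`, where `q` is the norm of the prime of `K` below `P`. -/
def IsFrobenius (q : ℕ) (P : Ideal (𝓞 (AlgebraicClosure K))) (σ : AbsGal K) : Prop :=
  ∀ x : 𝓞 (AlgebraicClosure K), σ • x - x ^ q ∈ P

end

/-- Every homomorphism with open kernel from the absolute Galois group of `K` to the group `E`
which is trivial on the inertia groups at all maximal ideals of the ring of all algebraic integers
is trivial. -/
def NoUnramified (K : Type) [Field K] (E : Type) [Group E] : Prop :=
  ∀ f : AbsGal K →* E, IsOpen (f.ker : Set (AbsGal K)) →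
    (∀ P : Ideal (𝓞 (AlgebraicClosure K)), P.IsMaximal → ∀ τ, InInertia P τ → f τ = 1) →
    ∀ g, f g = 1

/-- `K` has no extension which is unramified at all finite primes. -/
def NoUnramifiedExtension (K : Type) [Field K] : Prop := ∀ (E : Type) [Group E], NoUnramified K E

/-- `K` is the field of rational numbers, or has degree `2`, `3` or `4` and absolute discriminant
at most `6`, `31` or `158`. -/
def SmallDiscriminant (K : Type) [Field K] [NumberField K] : Prop :=
  Module.finrank ℚ K = 1 ∨ (Module.finrank ℚ K = 2 ∧ |discr K| ≤ 6) ∨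
    (Module.finrank ℚ K = 3 ∧ |discr K| ≤ 31) ∨ (Module.finrank ℚ K = 4 ∧ |discr K| ≤ 158)

section
variable {K : Type} [Field K] [NumberField K]

/-- `v` has level `k`: the exact power of `p` which divides `N(v) - 1` is `p ^ k`. -/
def HasLevel (p k : ℕ) (v : Ideal (𝓞 K)) : Prop :=
  p ^ k ∣ Ideal.absNorm v - 1 ∧ ¬ p ^ (k + 1) ∣ Ideal.absNorm v - 1

/-- At most two elements of `S` have level `k`. -/
def AtMostTwo (p k : ℕ) (S : Set (Ideal (𝓞 K))) : Prop :=
  ∃ v w : Ideal (𝓞 K), ∀ u ∈ S, HasLevel p k u → u = v ∨ u = w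

/-- There is no infinitesimal solution at level `k`: let `φ` be a homomorphism with open kernel
from the absolute Galois group of `K` to the additive group of the `n × n` matrices over a field of
characteristic `p`, which is trivial on the inertia groups at all primes not in `S`, above `p` or
not of level `k`, and such that for the other maximal ideals `P`, `τ` in the inertia group and `σ` a
Frobenius element at `P`, `φ τ` is nilpotent and its commutator with `φ σ` is
`((N - 1) / p ^ k) φ τ`, `N` the norm of the prime below `P`; then `φ` is trivial. -/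
def NoInfinitesimal (p n k : ℕ) (S : Set (Ideal (𝓞 K))) : Prop :=
  ∀ (κ : Type) [Field κ] [CharP κ p] (φ : AbsGal K →* Multiplicative (Matrix (Fin n) (Fin n) κ)),
    IsOpen (φ.ker : Set (AbsGal K)) →
    (∀ P : Ideal (𝓞 (AlgebraicClosure K)), P.IsMaximal →
      ¬ ((p : 𝓞 (AlgebraicClosure K)) ∉ P ∧ below P ∈ S ∧ HasLevel p k (below P)) →
      ∀ τ, InInertia P τ → φ τ = 1) →
    (∀ P : Ideal (𝓞 (AlgebraicClosure K)), P.IsMaximal → (p : 𝓞 (AlgebraicClosure K)) ∉ P →
      below P ∈ S → HasLevel p k (below P) → ∀ τ, InInertia P τ →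
      ∀ σ, IsFrobenius (Ideal.absNorm (below P)) P σ →
      IsNilpotent (Multiplicative.toAdd (φ τ)) ∧
      Multiplicative.toAdd (φ σ) * Multiplicative.toAdd (φ τ) -
        Multiplicative.toAdd (φ τ) * Multiplicative.toAdd (φ σ) =
        (((Ideal.absNorm (below P) - 1) / p ^ k : ℕ) : κ) • Multiplicative.toAdd (φ τ)) →
    ∀ g, φ g = 1

variable {A : Type} [CommRing A] {n : ℕ}

/-- The reductions of all `ρ g - 1` are nilpotent. -/
def ResiduallyUnipotent [IsLocalRing A] (ρ : AbsGal K →* GL (Fin n) A) : Prop :=
  ∀ g, ∃ M : ℕ, ∀ i j, (((ρ g : Matrix (Fin n) (Fin n) A) - 1) ^ M) i j ∈ maximalIdeal A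

/-- `ρ` is trivial on the inertia groups at the primes above `p` and at the primes not in `S`. -/
def UnramifiedOutside (p : ℕ) (S : Set (Ideal (𝓞 K))) (ρ : AbsGal K →* GL (Fin n) A) : Prop :=
  ∀ P : Ideal (𝓞 (AlgebraicClosure K)), P.IsMaximal →
    ((p : 𝓞 (AlgebraicClosure K)) ∈ P ∨ below P ∉ S) → ∀ τ, InInertia P τ → ρ τ = 1

/-- For every prime `v` of `K` which does not lie above `p` the inertia groups at `v` act trivially
modulo `p ^ m` and modulo all powers of `p` which divide `N(v) - 1`. -/
def InertiaCondition (p m : ℕ) (ρ : AbsGal K →* GL (Fin n) A) : Prop :=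
  ∀ P : Ideal (𝓞 (AlgebraicClosure K)), P.IsMaximal → (p : 𝓞 (AlgebraicClosure K)) ∉ P →
    ∀ τ, InInertia P τ → ∀ k : ℕ, k ≤ m ∨ p ^ k ∣ Ideal.absNorm (below P) - 1 →
      ∀ i j, (p : A) ^ k ∣ ((ρ τ : Matrix (Fin n) (Fin n) A) - 1) i j

end

theorem result (p : ℕ) [Fact p.Prime] (m : ℕ) (hm : 2 < p ^ m) (n : ℕ)
    (K : Type) [Field K] [NumberField K] (S : Set (Ideal (𝓞 K)))
    (hS : ∀ k, m ≤ k → AtMostTwo p k S ∨ NoInfinitesimal p n k S)
    (A : Type) [CommRing A] [IsLocalRing A] [IsNoetherianRing A] [TopologicalSpace A]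
    (hA : IsAdic (maximalIdeal A)) (hpA : (p : A) ∈ maximalIdeal A)
    (ρ : AbsGal K →* GL (Fin n) A) (hρ : Continuous ρ)
    (hK : SmallDiscriminant K ∨ NoUnramifiedExtension K ∨
      (NoUnramified K (Multiplicative (ZMod p)) ∧ ResiduallyUnipotent ρ))
    (hur : UnramifiedOutside p S ρ) (hI : InertiaCondition p m ρ) :
    ((∀ a : A, (p : A) ^ (m + 1) * a = 0 → (p : A) ^ m * a = 0) → ∀ g, ρ g = 1) ∧
    (S.Finite → (Set.range ρ).Finite) := by
  classical
  have hm1 : 1 ≤ m := by
    rcases Nat.eq_zero_or_pos m with h | h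
    · rw [h, pow_zero] at hm
      omega
    · exact h
  have hcts : ∀ N : ℕ, ∀ᶠ g in nhds (1 : AbsGal K), Pool.Agent.TH831.NA.MJ (maximalIdeal A ^ N)
      ((ρ g : Matrix (Fin n) (Fin n) A) - 1) := fun N => Pool.Agent.TH831.NA.cts_memN hA hρ N
  have hall : Pool.Agent.R417.FK.NoUrAll K ∨ (Pool.Agent.R417.FK.NoUr K p ∧
      ResiduallyUnipotent ρ) := by
    rcases hK with (h | h) | h | h
    · exact Or.inl (Pool.Agent.R417.FK.noUrAll_one h)
    · exact Or.inl (Pool.Agent.R417.FK.noUrAll_small h)
    · exact Or.inl h
    · exact Or.inr h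
  have hG : Pool.Agent.R417.FK.Good ρ := by
    rcases hall with h | ⟨h1, h2⟩
    · exact Pool.Agent.R417.FK.good_all h hcts
    · exact Pool.Agent.R417.FK.good_p (p := p) h1 hpA hcts h2
  have hKp : Pool.Agent.R417.FK.NoUr K p := by
    rcases hall with h | ⟨h1, -⟩
    · exact Pool.Agent.R417.FK.noUr_of_all h p
    · exact h1
  have hcrit : ∀ k, m ≤ k → Pool.Agent.R417.FK.Crit p n k S := by
    intro k hk
    rcases hS k hk with ⟨v, w, h⟩ | h
    · exact Pool.Agent.R417.FK.crit_two hKp n k v w fun P _ _ hPS hl => h _ hPS hl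
    · exact h
  have hfin := Pool.Agent.R417.FK.finalN hpA hcts hG hKp hm1 hm
    (fun P hP h τ hτ => hur P hP (Or.inl h) τ hτ) (fun P hP h τ hτ => hur P hP (Or.inr h) τ hτ)
    hI hcrit
  refine ⟨hfin.1, fun hSf => ?_⟩
  -- the residue characteristics
  have hex : ∀ v : Ideal (𝓞 K), ∃ l : ℕ, l.Prime ∧
      ((∃ l' : ℕ, l'.Prime ∧ (l' : 𝓞 K) ∈ v) → (l : 𝓞 K) ∈ v) := by
    intro v
    by_cases h : ∃ l' : ℕ, l'.Prime ∧ (l' : 𝓞 K) ∈ v
    · obtain ⟨l, h1, h2⟩ := h
      exact ⟨l, h1, fun _ => h2⟩
    · exact ⟨2, Nat.prime_two, fun h' => absurd h' h⟩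
  choose l hl1 hl2 using hex
  refine hfin.2 (hSf.toFinset.image l) (fun q hq => ?_) (fun P hP hPR τ hτ => ?_)
  · obtain ⟨v, -, rfl⟩ := Finset.mem_image.1 hq
    exact hl1 v
  · refine hur P hP (Or.inr fun hPS => ?_) τ hτ
    have h1 : l (below P) ∈ hSf.toFinset.image l :=
      Finset.mem_image.2 ⟨below P, hSf.mem_toFinset.2 hPS, rfl⟩
    apply hPR _ h1
    have h2 : ∃ l' : ℕ, l'.Prime ∧ (l' : 𝓞 K) ∈ below P := by
      have hmax : (below P).IsMaximal := Pool.Agent.R417.FK.cm_max hP
      have hne : below P ≠ ⊥ := Pool.Agent.R417.FK.cm_ne_bot hP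
      have hprime := hmax.isPrime
      have hn : ((Ideal.absNorm (below P) : ℕ) : 𝓞 K) ∈ below P := Ideal.absNorm_mem _
      have hn0 : Ideal.absNorm (below P) ≠ 0 := by
        rw [Ne, Ideal.absNorm_eq_zero_iff]
        exact hne
      by_contra hcon
      push Not at hcon
      have h3 : ∀ N : ℕ, N ≠ 0 → ((N : ℕ) : 𝓞 K) ∉ below P := by
        intro N
        induction N using Nat.recOnMul with
        | zero => intro h; exact absurd rfl h
        | one =>
          intro _ h
          rw [Nat.cast_one] at h
          exact hmax.ne_top ((Ideal.eq_top_iff_one _).2 h)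
        | prime q hq => intro _; exact hcon q hq
        | mul a b ha hb =>
          intro hab h
          rw [Nat.cast_mul] at h
          rcases hprime.mem_or_mem h with h | h
          · exact ha (left_ne_zero_of_mul hab) h
          · exact hb (right_ne_zero_of_mul hab) h
      exact h3 _ hn0 hn
    have h3 := hl2 _ h2
    have h4 : algebraMap (𝓞 K) (𝓞 (AlgebraicClosure K)) ((l (below P) : ℕ) : 𝓞 K) ∈ P := h3
    rwa [map_natCast] at h4

end Pool.Agent.Results.MP_924d78_nt.SeveralLevels
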